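import Pool.Agent.Y262.EG.Stm
import Pool.Agent.Y80.EX.Exist

/-!
# Project EG: invariance of the Liouville measure upstairs
-/

set_option autoImplicit false

open Set Filter Topology MeasureTheory
open scoped ContDiff

noncomputable section

namespace Pool.Agent.Y85.EG

open Pool.Agent.Y262.EG
open Pool.Agent.Y80.EX (Fm Fm_eq cc ll det_Fm normSq_cc jac_image dens_apply)

/-- the coordinates -/
def ey : (Fin 3 → ℝ) ≃ₗ[ℝ] Y where
  toFun v := (⟨v 0, v 1⟩, v 2)
  invFun y := ![y.1.re, y.1.im, y.2]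
  map_add' v w := by
    apply Prod.ext
    · apply Complex.ext
      · simp
      · simp
    · simp
  map_smul' r v := by
    apply Prod.ext
    · apply Complex.ext
      · simp
      · simp
    · simp
  left_inv v := by
    funext i
    fin_cases i <;> rfl
  right_inv y := by
    apply Prod.ext
    · apply Complex.ext
      · rfl
      · rfl
    · rfl

/-- the matrix of the cocycle -/
def mN (c c1 s s1 : ℝ) : Matrix (Fin 3) (Fin 3) ℝ := !![1, 0, 0; 0, c, s; 0, c1, s1]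

/-- the endomorphism of the cocycle -/
def eN (c c1 s s1 : ℝ) : Y →ₗ[ℝ] Y :=
  (ey : (Fin 3 → ℝ) →ₗ[ℝ] Y) ∘ₗ Matrix.toLin' (mN c c1 s s1) ∘ₗ (ey.symm : Y →ₗ[ℝ] (Fin 3 → ℝ))

theorem det_eN (c c1 s s1 : ℝ) : LinearMap.det (eN c c1 s s1) = c * s1 - c1 * s := by
  unfold eN
  rw [LinearMap.det_conj, LinearMap.det_toLin', Matrix.det_fin_three]
  simp [mN]
  ring

theorem eN_apply (c c1 s s1 : ℝ) (v : Y) :
    eN c c1 s s1 v = (⟨v.1.re, c * v.1.im + s * v.2⟩, c1 * v.1.im + s1 * v.2) := by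
  have h : eN c c1 s s1 v = ey (Matrix.toLin' (mN c c1 s s1) ![v.1.re, v.1.im, v.2]) := rfl
  rw [h, Matrix.toLin'_apply]
  show ((⟨_, _⟩, _) : Y) = _
  apply Prod.ext
  · apply Complex.ext
    · simp [mN, Matrix.mulVec, dotProduct, Fin.sum_univ_three]
    · simp [mN, Matrix.mulVec, dotProduct, Fin.sum_univ_three]
  · simp [mN, Matrix.mulVec, dotProduct, Fin.sum_univ_three]

theorem det_cocycle (φ : ℂ → ℝ) (p p' : Y) (L : Y →L[ℝ] Y) (c c1 s s1 : ℝ)
    (hX : L (XX φ p) = XX φ p') (hH : L (HH φ p) = c • HH φ p' + c1 • VV)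
    (hV : L VV = s • HH φ p' + s1 • VV) :
    L.det * Real.exp (-(2 * φ p.1)) = Real.exp (-(2 * φ p'.1)) * (c * s1 - c1 * s) := by
  have h1 : (L : Y →ₗ[ℝ] Y) ∘ₗ Fm (cc φ p) (ll φ p) = Fm (cc φ p') (ll φ p') ∘ₗ eN c c1 s s1 := by
    apply LinearMap.ext
    intro v
    rw [LinearMap.comp_apply, LinearMap.comp_apply, Fm_eq, eN_apply, Fm_eq, map_add, map_add,
      map_smul, map_smul, map_smul]
    simp only [ContinuousLinearMap.coe_coe, hX, hH, hV]
    module
  have h2 := congrArg LinearMap.det h1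
  rw [LinearMap.det_comp, LinearMap.det_comp, det_Fm, det_Fm, normSq_cc, normSq_cc, det_eN] at h2
  exact h2

theorem jac_det {k c c1 s s1 : ℝ → ℝ} (h : Jac k c c1 s s1) (t : ℝ) :
    c t * s1 t - c1 t * s t = 1 := by
  have hd : ∀ τ, HasDerivAt (fun τ => c τ * s1 τ - c1 τ * s τ) 0 τ := by
    intro τ
    have h1 := ((h.dc τ).mul (h.ds1 τ)).sub ((h.dc1 τ).mul (h.ds τ))
    have h2 : c1 τ * s1 τ + c τ * (k τ * s τ) - (k τ * c τ * s τ + c1 τ * s1 τ) = 0 := by ring
    rw [h2] at h1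
    exact h1
  have h3 : c t * s1 t - c1 t * s t = c 0 * s1 0 - c1 0 * s 0 :=
    is_const_of_deriv_eq_zero (fun τ => (hd τ).differentiableAt) (fun τ => (hd τ).deriv) t 0
  rw [h3, h.c0, h.c10, h.s0, h.s10]
  ring

theorem liouUp : StUniq → StFrame → StCoc → StLiouUp := by
  intro hU _ hC Ω φ Fl hΩ hφ hG t B hB hBO
  obtain ⟨c, c1, s, s1, hc⟩ := hC Ω φ Fl hΩ hφ hG
  have hgrp := (hU Ω φ hΩ hφ).2 Fl hG
  have hO : IsOpen (YO Ω) := hΩ.preimage continuous_fst
  have hO2 : IsOpen {a : ℝ × Y | a.2 ∈ YO Ω} := hO.preimage continuous_snd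
  have hdiff : ∀ y ∈ YO Ω, HasFDerivAt (Fl t) (fderiv ℝ (Fl t) y) y := by
    intro y hy
    have h1 : DifferentiableAt ℝ (fun a : ℝ × Y => Fl a.1 a.2) (t, y) :=
      (hG.smooth.differentiableOn (by norm_num)).differentiableAt (hO2.mem_nhds hy)
    have h2 : DifferentiableAt ℝ (fun x : Y => ((t, x) : ℝ × Y)) y :=
      (differentiableAt_const t).prodMk differentiableAt_id
    have h3 : DifferentiableAt ℝ ((fun a : ℝ × Y => Fl a.1 a.2) ∘ fun x : Y => ((t, x) : ℝ × Y)) y :=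
      DifferentiableAt.comp y h1 h2
    have h4 : DifferentiableAt ℝ (Fl t) y := h3
    exact h4.hasFDerivAt
  have hinj : InjOn (Fl t) (YO Ω) := by
    intro y hy y' hy' h
    have h1 : ∀ x ∈ YO Ω, Fl (-t) (Fl t x) = x := by
      intro x hx
      rw [← hgrp (-t) t x hx, neg_add_cancel, hG.zero x hx]
    rw [← h1 y hy, h, h1 y' hy']
  have hhaar : (volume : Measure Y).IsAddHaarMeasure :=
    MeasureTheory.Measure.prod.instIsAddHaarMeasure (volume : Measure ℂ) (volume : Measure ℝ)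
  have key := jac_image (volume : Measure Y) (YO Ω) (YO Ω) hO.measurableSet
    (fun p => ENNReal.ofReal (Real.exp (2 * φ p.1))) (Fl t) (fun y => fderiv ℝ (Fl t) y)
    (subset_refl _) (fun y hy => hG.maps t y hy) hdiff hinj (fun y hy => by
      have h6 := det_cocycle φ y (Fl t y) (fderiv ℝ (Fl t) y) (c t y) (c1 t y) (s t y) (s1 t y)
        (hc.X t y hy) (hc.H t y hy) (hc.V t y hy)
      rw [jac_det (hc.jac y hy) t, mul_one] at h6
      have h7 : (fderiv ℝ (Fl t) y).det =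
          Real.exp (2 * φ y.1) * Real.exp (-(2 * φ (Fl t y).1)) := by
        rw [← h6, Real.exp_neg]
        field_simp
      rw [← ENNReal.ofReal_mul (abs_nonneg _), h7, abs_of_nonneg (by positivity), mul_assoc,
        ← Real.exp_add, neg_add_cancel, Real.exp_zero, mul_one])
    B hB hBO
  refine ⟨key.1, ?_⟩
  have h8 : Fl t '' B ⊆ YO Ω := by
    rintro _ ⟨y, hy, rfl⟩
    exact hG.maps t y (hBO hy)
  rw [← dens_apply (volume : Measure Y) (YO Ω) _ _ key.1 h8,
    ← dens_apply (volume : Measure Y) (YO Ω) _ _ hB hBO]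
  exact key.2

end Pool.Agent.Y85.EG
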